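import Pool.Agent.U419.CG.Main

set_option autoImplicit false

/-!
# Monochromatic convex polygons in two-coloured point sets: `log g(p) = O(p ^ 2 log p)`

`GenPos P`: no three points of the finite set `P` of points of the plane `ℝ × ℝ` are collinear.
`ConvPos Q`: the points of `Q` are convexly independent (no point of `Q` is in the convex hull of
the other points of `Q`), that is, they are the vertices of a convex polygon.
`Mono χ Q`: all pairs of different points of `Q` get the same colour under `χ`.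
-/

open Finset

namespace Pool.Agent.Results.MP_6c3374_co.UpperBound

open Pool.Agent.U419.CG

/-- In every two-coloured set of `n` points in general position, some `p` points are in convex
position and all pairs of these have the same colour. -/
def Forces (p n : ℕ) : Prop :=
  ∀ P : Finset (ℝ × ℝ), P.card = n → GenPos P → ∀ χ : Sym2 (ℝ × ℝ) → Bool,
    ∃ Q : Finset (ℝ × ℝ), Q ⊆ P ∧ Q.card = p ∧ ConvPos Q ∧ Mono χ Q

/-- The least `n` with the property `Forces p n`. -/
noncomputable def g (p : ℕ) : ℕ := sInf {n | Forces p n}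

theorem forces_of_le {p : ℕ} (hp : 3 ≤ p) {n : ℕ}
    (hn : 2 * (4 * p - 10) ^ (2 * (p - 2) ^ 2) ≤ n) : Forces p n := by
  intro P hPn hP χ
  by_contra hcon
  push Not at hcon
  obtain ⟨m, rfl⟩ : ∃ m, p = m + 2 := ⟨p - 2, by omega⟩
  have h1 := main_bound (χ := χ) (m := m) hP (fun Q hQ hc hconv => hcon Q hQ hc hconv)
  have h2 := F_le (m := m) (by omega) (2 * m ^ 2)
  have e1 : 4 * (m + 2) - 10 = 4 * m - 2 := by omega
  have e2 : m + 2 - 2 = m := by omega
  rw [e1, e2] at hn
  omega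

/-- For every `p ≥ 3`: every `n ≥ 2 (4p - 10) ^ (2 (p - 2) ^ 2)` has the property, the least such
`n`, which is `g p`, exists, and `log g(p) ≤ 1 + 2 (p - 2) ^ 2 log (4p - 10)`, logarithms to
base 2. -/
theorem result (p : ℕ) (hp : 3 ≤ p) :
    (∀ n : ℕ, 2 * (4 * p - 10) ^ (2 * (p - 2) ^ 2) ≤ n → Forces p n) ∧
      Forces p (g p) ∧ g p ≤ 2 * (4 * p - 10) ^ (2 * (p - 2) ^ 2) ∧
      Real.logb 2 (g p) ≤ 1 + 2 * ((p : ℝ) - 2) ^ 2 * Real.logb 2 (4 * p - 10) := by
  have h1 : ∀ n : ℕ, 2 * (4 * p - 10) ^ (2 * (p - 2) ^ 2) ≤ n → Forces p n :=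
    fun n hn => forces_of_le hp hn
  have hne : {n | Forces p n}.Nonempty := ⟨_, h1 _ le_rfl⟩
  have h2 : Forces p (g p) := Nat.sInf_mem hne
  have h3 : g p ≤ 2 * (4 * p - 10) ^ (2 * (p - 2) ^ 2) := Nat.sInf_le (h1 _ le_rfl)
  refine ⟨h1, h2, h3, ?_⟩
  have hbpos : (0 : ℝ) < 4 * (p : ℝ) - 10 := by
    have : (3 : ℝ) ≤ p := by exact_mod_cast hp
    linarith
  have hcast : ((2 * (4 * p - 10) ^ (2 * (p - 2) ^ 2) : ℕ) : ℝ) =
      2 * (4 * (p : ℝ) - 10) ^ (2 * (p - 2) ^ 2) := by
    have : ((4 * p - 10 : ℕ) : ℝ) = 4 * (p : ℝ) - 10 := by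
      rw [Nat.cast_sub (by omega)]; push_cast; ring
    push_cast [this]
    ring
  by_cases hg : g p = 0
  · rw [hg]
    simp only [Nat.cast_zero, Real.logb_zero]
    have h5 : 0 ≤ Real.logb 2 (4 * p - 10) := by
      apply Real.logb_nonneg (by norm_num)
      have : (3 : ℝ) ≤ p := by exact_mod_cast hp
      linarith
    positivity
  · have hgpos : (0 : ℝ) < g p := by
      have : 0 < g p := Nat.pos_of_ne_zero hg
      exact_mod_cast this
    have h4 : (g p : ℝ) ≤ 2 * (4 * (p : ℝ) - 10) ^ (2 * (p - 2) ^ 2) := by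
      rw [← hcast]; exact_mod_cast h3
    have h5 := Real.logb_le_logb_of_le (b := 2) (by norm_num) hgpos h4
    rw [Real.logb_mul (by norm_num) (by positivity), Real.logb_pow,
      Real.logb_self_eq_one (by norm_num)] at h5
    have h6 : ((2 * (p - 2) ^ 2 : ℕ) : ℝ) = 2 * ((p : ℝ) - 2) ^ 2 := by
      push_cast [Nat.cast_sub (show 2 ≤ p by omega)]
      ring
    rw [h6] at h5
    exact h5

end Pool.Agent.Results.MP_6c3374_co.UpperBound
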